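import Mathlib

namespace Pool.Agent.Lib.MPc5669f

open Module

/-- If a family of linear forms on a finite-dimensional space separates points, then some
members of the family form a basis of the dual space; this gives a dual system. -/
theorem exists_dual_system {K X V : Type*} [Field K] [AddCommGroup V] [Module K V]
    [FiniteDimensional K V] (ev : X → Dual K V) (hsep : ∀ v, (∀ x, ev x v = 0) → v = 0) :
    ∃ (x : Fin (finrank K V) → X) (b : Fin (finrank K V) → V),
      (∀ i j, ev (x j) (b i) = if i = j then 1 else 0) ∧
      (∀ v : V, v = ∑ i, ev (x i) v • b i) := by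
  classical
  have htop : Submodule.span K (Set.range ev) = ⊤ := by
    apply Submodule.span_eq_top_of_ne_zero
    intro z hz
    by_contra hcon
    push Not at hcon
    apply hz
    exact hsep z fun x => hcon (ev x) ⟨x, rfl⟩
  have hfin : finrank K (Submodule.span K (Set.range ev)) = finrank K V := by
    rw [htop, finrank_top, Subspace.dual_finrank_eq]
  obtain ⟨f, hf, hspan, hli⟩ := Submodule.exists_fun_fin_finrank_span_eq K (Set.range ev)
  have hspan' := hspan.trans htop
  choose y hy using hf
  let e : Fin (finrank K V) ≃ Fin (finrank K (Submodule.span K (Set.range ev))) :=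
    finCongr hfin.symm
  let B : Basis (Fin (finrank K V)) K (Dual K V) :=
    Basis.mk (v := fun i => f (e i)) (hli.comp e e.injective) (by
      have : Set.range (fun i => f (e i)) = Set.range f := by
        ext z; constructor
        · rintro ⟨i, rfl⟩; exact ⟨e i, rfl⟩
        · rintro ⟨i, rfl⟩; exact ⟨e.symm i, by simp⟩
      rw [this, hspan'])
  have hB : ∀ i, B i = ev (y (e i)) := by
    intro i
    simp only [B, Basis.mk_apply, hy]
  let b : Fin (finrank K V) → V := fun i => (evalEquiv K V).symm (B.dualBasis i)
  have hb : ∀ i j, ev (y (e j)) (b i) = if i = j then 1 else 0 := by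
    intro i j
    rw [← hB]
    have h1 : evalEquiv K V (b i) = B.dualBasis i := by simp [b]
    have h2 : (evalEquiv K V (b i)) (B j) = (B j) (b i) := by
      simp
    rw [← h2, h1]
    rw [Basis.dualBasis_apply_self]
    simp [eq_comm]
  refine ⟨fun i => y (e i), b, hb, ?_⟩
  intro v
  have key : ∀ w : V, (∀ j, ev (y (e j)) w = 0) → w = 0 := by
    intro w hw
    rw [← forall_dual_apply_eq_zero_iff K w]
    intro φ
    have : φ ∈ Submodule.span K (Set.range B) := by rw [B.span_eq]; trivial
    induction this using Submodule.span_induction with
    | mem x hx =>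
      obtain ⟨j, rfl⟩ := hx
      rw [hB]; exact hw j
    | zero => rfl
    | add a b _ _ ha hb => simp [ha, hb]
    | smul a x _ hx => simp [hx]
  rw [← sub_eq_zero]
  apply key
  intro j
  simp [hb]

theorem card_le_finrank_of_dual {K V : Type*} [Field K] [AddCommGroup V] [Module K V]
    [FiniteDimensional K V] {ι : Type*} [Fintype ι] (b : ι → Dual K V)
    (h : LinearIndependent K b) : Fintype.card ι ≤ finrank K V := by
  have h1 := h.fintype_card_le_finrank
  rw [Subspace.dual_finrank_eq] at h1
  exact h1

end Pool.Agent.Lib.MPc5669f
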