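import Mathlib

namespace Pool.Agent.Lib.MPc5669f

open Module

variable {C K : Type*} [Field C] [Field K] [Algebra C K]

/-- Multiplication by `g` as a `C`-linear operator. -/
def mu (C : Type*) {K : Type*} [Field C] [Field K] [Algebra C K] (g : K) : Module.End C K :=
  LinearMap.mulLeft C g

theorem mu_apply (g x : K) : mu C g x = g * x := rfl

theorem mu_mul (g h : K) : mu C g * mu C h = mu C (g * h) := by
  ext x; simp [mu_apply, mul_assoc]

theorem mu_one : mu C (1 : K) = 1 := by
  ext x; simp [mu_apply]

theorem mu_add (g h : K) : mu C (g + h) = mu C g + mu C h := by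
  ext x; simp [mu_apply, add_mul]

theorem mu_sub (g h : K) : mu C (g - h) = mu C g - mu C h := by
  ext x; simp [mu_apply, sub_mul]

theorem mu_zero : mu C (0 : K) = 0 := by
  ext x; simp [mu_apply]

theorem mu_smul (c : C) (g : K) : mu C (c • g) = c • mu C g := by
  ext x; simp [mu_apply]

theorem smul_eq_mu_mul (g : K) (U : Module.End C K) : g • U = mu C g * U := by
  ext x; simp [mu_apply]

variable {ι : Type*} (e : ι → Derivation C K K)

/-- A derivation as an operator. -/
def opE (i : ι) : Module.End C K := (e i : K →ₗ[C] K)

theorem opE_apply (i : ι) (x : K) : opE e i x = e i x := rfl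

theorem opE_mul_mu (i : ι) (g : K) :
    opE e i * mu C g = mu C g * opE e i + mu C (e i g) := by
  ext x
  simp [mu_apply, opE_apply, mul_comm]

theorem mu_mul_opE (i : ι) (g : K) :
    mu C g * opE e i = opE e i * mu C g - mu C (e i g) := by
  rw [opE_mul_mu]; simp

/-- The product of the derivations along a list. -/
def word (L : List ι) : Module.End C K := (L.map (opE e)).prod

theorem word_nil : word e [] = 1 := rfl

theorem word_cons (i : ι) (L : List ι) : word e (i :: L) = opE e i * word e L := by
  simp [word]

theorem word_append (L L' : List ι) : word e (L ++ L') = word e L * word e L' := by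
  simp [word]

theorem word_singleton (i : ι) : word e [i] = opE e i := by
  simp [word]

theorem word_replicate (n : ℕ) (i : ι) : word e (List.replicate n i) = opE e i ^ n := by
  simp [word]

/-- Right `K`-span of words of length between `1` and `s`. -/
def Jr (s : ℕ) : Submodule C (Module.End C K) :=
  Submodule.span C {U | ∃ (L : List ι) (g : K), L ≠ [] ∧ L.length ≤ s ∧ U = word e L * mu C g}

theorem word_mul_mu_mem_Jr {s : ℕ} {L : List ι} (hL : L ≠ []) (hs : L.length ≤ s) (g : K) :
    word e L * mu C g ∈ Jr e s :=
  Submodule.subset_span ⟨L, g, hL, hs, rfl⟩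

theorem Jr_mono {s t : ℕ} (h : s ≤ t) : Jr e s ≤ Jr e t := by
  apply Submodule.span_mono
  rintro U ⟨L, g, hL, hs, rfl⟩
  exact ⟨L, g, hL, hs.trans h, rfl⟩

theorem Jr_mul_mu {s : ℕ} {U : Module.End C K} (hU : U ∈ Jr e s) (g : K) :
    U * mu C g ∈ Jr e s := by
  induction hU using Submodule.span_induction with
  | mem x hx =>
    obtain ⟨L, h, hL, hs, rfl⟩ := hx
    rw [mul_assoc, mu_mul]
    exact word_mul_mu_mem_Jr e hL hs _
  | zero => simp
  | add a b _ _ ha hb => rw [add_mul]; exact add_mem ha hb
  | smul c a _ ha => rw [smul_mul_assoc]; exact Submodule.smul_mem _ _ ha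

theorem Jr_mul_opE {s : ℕ} {U : Module.End C K} (hU : U ∈ Jr e s) (i : ι) :
    U * opE e i ∈ Jr e (s + 1) := by
  induction hU using Submodule.span_induction with
  | mem x hx =>
    obtain ⟨L, h, hL, hs, rfl⟩ := hx
    rw [mul_assoc, mu_mul_opE, mul_sub, ← mul_assoc]
    apply sub_mem
    · have : word e L * opE e i = word e (L ++ [i]) := by rw [word_append, word_singleton]
      rw [this]
      apply word_mul_mu_mem_Jr e (by simp)
      simp; omega
    · exact word_mul_mu_mem_Jr e hL (by omega) _
  | zero => simp
  | add a b _ _ ha hb => rw [add_mul]; exact add_mem ha hb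
  | smul c a _ ha => rw [smul_mul_assoc]; exact Submodule.smul_mem _ _ ha

theorem opE_mul_Jr {s : ℕ} {U : Module.End C K} (hU : U ∈ Jr e s) (i : ι) :
    opE e i * U ∈ Jr e (s + 1) := by
  induction hU using Submodule.span_induction with
  | mem x hx =>
    obtain ⟨L, h, hL, hs, rfl⟩ := hx
    rw [← mul_assoc, ← word_cons]
    apply word_mul_mu_mem_Jr e (by simp)
    simp; omega
  | zero => simp
  | add a b _ _ ha hb => rw [mul_add]; exact add_mem ha hb
  | smul c a _ ha => rw [mul_smul_comm]; exact Submodule.smul_mem _ _ ha

theorem Jr_mul_word {s : ℕ} {U : Module.End C K} (hU : U ∈ Jr e s) (L : List ι) :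
    U * word e L ∈ Jr e (s + L.length) := by
  induction L generalizing s U with
  | nil => simpa [word_nil] using hU
  | cons i L ih =>
    rw [word_cons, ← mul_assoc]
    have := ih (Jr_mul_opE e hU i)
    rw [List.length_cons]
    convert this using 2
    omega

theorem Jr_zero : Jr e 0 = ⊥ := by
  rw [Jr, Submodule.span_eq_bot]
  rintro U ⟨L, g, hL, hs, rfl⟩
  exact absurd (List.length_eq_zero_iff.mp (Nat.le_zero.mp hs)) hL

/-- Permuting the letters of a word changes it by shorter words. -/
theorem word_sub_word_of_perm
    (hbr : ∀ i j, opE e i * opE e j - opE e j * opE e i ∈ Jr e 1)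
    {L L' : List ι} (h : L.Perm L') : ∀ n, L.length ≤ n + 1 → word e L - word e L' ∈ Jr e n := by
  induction h with
  | nil => intro n _; simp
  | cons a h ih =>
    rename_i L L'
    intro n hn
    rw [List.length_cons] at hn
    cases n with
    | zero =>
      have hL : L = [] := List.length_eq_zero_iff.mp (by omega)
      subst hL
      have hL' : L' = [] := List.nil_perm.mp h
      subst hL'
      simp
    | succ n =>
      rw [word_cons, word_cons, ← mul_sub]
      exact opE_mul_Jr e (ih n (by omega)) a
  | swap a b L =>
    intro n hn
    rw [List.length_cons, List.length_cons] at hn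
    have : word e (b :: a :: L) - word e (a :: b :: L)
        = (opE e b * opE e a - opE e a * opE e b) * word e L := by
      simp only [word_cons, ← mul_assoc, sub_mul]
    rw [this]
    exact Jr_mono e (by omega) (Jr_mul_word e (hbr b a) L)
  | trans h1 h2 ih1 ih2 =>
    intro n hn
    rename_i L1 L2 L3
    have : word e L1 - word e L3 = (word e L1 - word e L2) + (word e L2 - word e L3) := by abel
    rw [this]
    exact add_mem (ih1 n hn) (ih2 n (by rw [← h1.length_eq]; exact hn))

section Canonical

variable [Fintype ι] [DecidableEq ι] (p : ℕ)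

/-- The multiset with prescribed multiplicities. -/
def canM (α : ι → Fin p) : Multiset ι := ∑ i, (α i : ℕ) • {i}

theorem count_canM (α : ι → Fin p) (i : ι) : (canM p α).count i = α i := by
  simp [canM, Multiset.count_sum', Multiset.count_singleton]

/-- The range of the canonical words. -/
def canSpan [NeZero p] : Submodule C (Module.End C K) :=
  Submodule.span C {U | ∃ (α : ι → Fin p) (g : K), α ≠ 0 ∧
    U = word e (canM p α).toList * mu C g}

theorem Jr_le_canSpan [NeZero p] (hp : 2 ≤ p)
    (hbr : ∀ i j, opE e i * opE e j - opE e j * opE e i ∈ Jr e 1)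
    (hpow : ∀ i, opE e i ^ p ∈ Jr e 1) (s : ℕ) : Jr e s ≤ canSpan e p := by
  induction s with
  | zero => rw [Jr_zero]; exact bot_le
  | succ n ih =>
    apply Submodule.span_le.mpr
    rintro U ⟨L, g, hL, hs, rfl⟩
    -- it is enough to write `word L` as canonical word plus an element of `Jr n`
    by_cases hcount : ∃ i, p ≤ L.count i
    · obtain ⟨i, hi⟩ := hcount
      -- bring `p` copies of `i` to the front
      obtain ⟨L'', hL''⟩ : ∃ L'', L.Perm (List.replicate p i ++ L'') := by
        have hsub : List.Sublist (List.replicate p i) L :=
          List.replicate_sublist_iff.mpr hi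
        exact hsub.exists_perm_append
      have hlen : L.length = p + L''.length := by
        rw [hL''.length_eq]; simp
      have h1 : word e L - word e (List.replicate p i ++ L'') ∈ Jr e n :=
        word_sub_word_of_perm e hbr hL'' n hs
      have h2 : word e (List.replicate p i ++ L'') ∈ Jr e n := by
        rw [word_append, word_replicate]
        exact Jr_mono e (by omega) (Jr_mul_word e (hpow i) L'')
      have h3 : word e L ∈ Jr e n := by
        have := add_mem h1 h2
        simpa using this
      exact ih (Jr_mul_mu e h3 g)
    · push Not at hcount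
      let α : ι → Fin p := fun i => ⟨L.count i, hcount i⟩
      have hM : canM p α = (L : Multiset ι) := by
        ext i
        rw [count_canM]
        simp [α]
      have hperm : L.Perm (canM p α).toList := by
        rw [← Multiset.coe_eq_coe, Multiset.coe_toList, hM]
      have hα : α ≠ 0 := by
        intro h0
        apply hL
        apply List.eq_nil_iff_forall_not_mem.mpr
        intro i hi
        have h1 : L.count i = 0 := by
          have := congrArg (fun f => ((f i : Fin p) : ℕ)) h0
          simpa [α] using this
        exact List.count_eq_zero.mp h1 hi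
      have h1 := word_sub_word_of_perm e hbr hperm n hs
      have h2 : word e L * mu C g = (word e L - word e (canM p α).toList) * mu C g
          + word e (canM p α).toList * mu C g := by
        rw [sub_mul]; abel
      rw [h2]
      apply add_mem
      · exact ih (Jr_mul_mu e h1 g)
      · exact Submodule.subset_span ⟨α, g, hα, rfl⟩

end Canonical

end Pool.Agent.Lib.MPc5669f
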