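import Mathlib
import Pool.Agent.Lib.MP_c5669f_al.Words
import Pool.Agent.Lib.MP_c5669f_al.Dual

namespace Pool.Agent.Lib.MPc5669f

open Module MvPolynomial

variable {C K : Type*} [Field C] [Field K] [Algebra C K]

/-- Evaluation at a point as a `K`-linear form on a space of operators. -/
def evK (V : Submodule K (Module.End C K)) (x : K) : Dual K V where
  toFun U := (U : Module.End C K) x
  map_add' U W := by simp
  map_smul' g U := by simp

theorem evK_apply (V : Submodule K (Module.End C K)) (x : K) (U : V) :
    evK V x U = (U : Module.End C K) x := rfl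

variable {κ : Type*} [DecidableEq κ]

/-- Monomials in elements of `K`. -/
noncomputable def mon (y : κ → K) (β : κ →₀ ℕ) : K := β.prod fun i n => y i ^ n

theorem deriv_aeval (y : κ → K) (i : κ) (D : Derivation C K K)
    (hD : ∀ j, D (y j) = if i = j then 1 else 0) (q : MvPolynomial κ C) :
    D (aeval y q) = aeval y (pderiv i q) := by
  induction q using MvPolynomial.induction_on with
  | C a => simp
  | add p q hp hq => simp [hp, hq]
  | mul_X p j hp =>
    rw [map_mul, D.leibniz, hp, aeval_X, hD, pderiv_mul, pderiv_X, map_add, map_mul, map_mul,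
      aeval_X]
    by_cases h : i = j
    · subst h
      simp; ring
    · have h' : j ≠ i := fun h' => h h'.symm
      simp [h, h']; ring

theorem deriv_mon (y : κ → K) (i : κ) (D : Derivation C K K)
    (hD : ∀ j, D (y j) = if i = j then 1 else 0) (β : κ →₀ ℕ) :
    D (mon y β) = (β i : K) * mon y (β - Finsupp.single i 1) := by
  have h1 : mon y β = aeval y (monomial β (1 : C)) := by
    rw [aeval_monomial]; simp [mon]
  rw [h1, deriv_aeval y i D hD, pderiv_monomial, aeval_monomial]
  simp [mon]

/-- The pairing of formal polynomials with operators. -/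
noncomputable def Lam (V : Submodule K (Module.End C K)) (y : κ → K) :
    MvPolynomial κ K →ₗ[K] Dual K V :=
  (MvPolynomial.basisMonomials κ K).constr K (fun β => evK V (mon y β))

omit [DecidableEq κ] in
theorem Lam_monomial (V : Submodule K (Module.End C K)) (y : κ → K) (β : κ →₀ ℕ) (c : K) :
    Lam V y (monomial β c) = c • evK V (mon y β) := by
  have h : monomial β c = c • (MvPolynomial.basisMonomials κ K) β := by
    rw [MvPolynomial.coe_basisMonomials, smul_monomial]; simp
  rw [h, map_smul, Lam, Basis.constr_basis]

theorem Lam_pderiv (V : Submodule K (Module.End C K)) (y : κ → K) (i : κ)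
    (D : Derivation C K K) (hD : ∀ j, D (y j) = if i = j then 1 else 0)
    (f : MvPolynomial κ K) (U W : V)
    (hW : (W : Module.End C K) = (U : Module.End C K) * (D : K →ₗ[C] K)) :
    Lam V y f W = Lam V y (pderiv i f) U := by
  classical
  induction f using MvPolynomial.induction_on' with
  | add p q hp hq => simp [hp, hq]
  | monomial β c =>
    rw [Lam_monomial, pderiv_monomial, Lam_monomial]
    simp only [LinearMap.smul_apply, evK_apply, smul_eq_mul, hW, Module.End.mul_apply,
      Derivation.coeFn_coe]
    rw [deriv_mon y i D hD]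
    have : (β i : K) * mon y (β - Finsupp.single i 1)
        = (β i) • mon y (β - Finsupp.single i 1) := by
      rw [nsmul_eq_mul]
    rw [this, map_nsmul, nsmul_eq_mul]
    ring

theorem Lam_injective [Fintype κ] (V : Submodule K (Module.End C K)) (p : ℕ) [Fact p.Prime] [CharP K p]
    (y : κ → K) (D : κ → Derivation C K K)
    (hD : ∀ i j, D i (y j) = if i = j then 1 else 0)
    (hone : (1 : Module.End C K) ∈ V)
    (hmul : ∀ U ∈ V, ∀ i, U * (D i : K →ₗ[C] K) ∈ V) :
    ∀ (n : ℕ) (f : MvPolynomial κ K), (∀ β : κ →₀ ℕ, n ≤ β.degree → coeff β f = 0) →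
      (∀ β, coeff β f ≠ 0 → ∀ i, β i < p) → Lam V y f = 0 → f = 0 := by
  classical
  intro n
  induction n with
  | zero =>
    intro f hf _ _
    ext β
    rw [hf β (Nat.zero_le _)]; simp
  | succ n ih =>
    intro f hf hp hL
    have hder : ∀ i, pderiv i f = 0 := by
      intro i
      apply ih
      · intro β hβ
        rw [coeff_pderiv, hf, zero_mul]
        rw [map_add, Finsupp.degree_single]
        omega
      · intro β hβ j
        rw [coeff_pderiv] at hβ
        have h1 : coeff (β + Finsupp.single i 1) f ≠ 0 := left_ne_zero_of_mul hβ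
        have h2 := hp _ h1 j
        rw [Finsupp.add_apply] at h2
        omega
      · ext U
        rw [← Lam_pderiv V y i (D i) (hD i) f U ⟨_, hmul U.1 U.2 i⟩ rfl, hL]
        simp
    have hzero : ∀ β : κ →₀ ℕ, β ≠ 0 → coeff β f = 0 := by
      intro β hβ
      by_contra hc
      obtain ⟨i, hi⟩ : ∃ i, β i ≠ 0 := by
        by_contra hcon
        push Not at hcon
        exact hβ (Finsupp.ext hcon)
      have h1 := congrArg (coeff (β - Finsupp.single i 1)) (hder i)
      have hβ' : β - Finsupp.single i 1 + Finsupp.single i 1 = β := by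
        apply Finsupp.ext
        intro j
        by_cases hj : j = i
        · subst hj; simp; omega
        · simp [Ne.symm hj]
      rw [coeff_pderiv, hβ', coeff_zero] at h1
      have h2 : (((β - Finsupp.single i 1 : κ →₀ ℕ) i : ℕ) : K) + 1 = (β i : K) := by
        have : (β - Finsupp.single i 1 : κ →₀ ℕ) i = β i - 1 := by simp
        rw [this, ← Nat.cast_succ]
        congr 1
        omega
      rw [h2] at h1
      rcases mul_eq_zero.mp h1 with h | h
      · exact hc h
      · rw [CharP.cast_eq_zero_iff K p] at h
        have := Nat.le_of_dvd (Nat.pos_of_ne_zero hi) h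
        have := hp β hc i
        omega
    have hfC : f = monomial 0 (coeff 0 f) := by
      ext β
      rw [coeff_monomial]
      by_cases hβ : 0 = β
      · simp [← hβ]
      · simp [hβ, hzero β (Ne.symm hβ)]
    have h1 := congrArg (fun φ => φ ⟨1, hone⟩) hL
    rw [hfC, Lam_monomial] at h1
    simp only [LinearMap.smul_apply, evK_apply, Module.End.one_apply, smul_eq_mul,
      LinearMap.zero_apply] at h1
    have h2 : mon y (0 : κ →₀ ℕ) = 1 := by simp [mon]
    rw [h2, mul_one] at h1
    rw [hfC, h1]; simp

theorem pow_le_finrank [Fintype κ] (V : Submodule K (Module.End C K)) [FiniteDimensional K V]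
    (p : ℕ) [Fact p.Prime] [CharP K p]
    (y : κ → K) (D : κ → Derivation C K K)
    (hD : ∀ i j, D i (y j) = if i = j then 1 else 0)
    (hone : (1 : Module.End C K) ∈ V)
    (hmul : ∀ U ∈ V, ∀ i, U * (D i : K →ₗ[C] K) ∈ V) :
    p ^ Fintype.card κ ≤ finrank K V := by
  classical
  let fs : (κ → Fin p) → (κ →₀ ℕ) := fun α => Finsupp.equivFunOnFinite.symm fun i => (α i : ℕ)
  have hfs : ∀ α i, fs α i = α i := fun α i => rfl
  have hfsinj : Function.Injective fs := by
    intro α α' h
    ext i
    rw [← hfs α, ← hfs α', h]
  have hli : LinearIndependent K (fun α : κ → Fin p => evK V (mon y (fs α))) := by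
    rw [Fintype.linearIndependent_iff]
    intro c hc
    have hsum : Lam V y (∑ α, monomial (fs α) (c α)) = 0 := by
      rw [map_sum, ← hc]
      exact Finset.sum_congr rfl fun α _ => Lam_monomial V y _ _
    have hcoeff : ∀ β, coeff β (∑ α, monomial (fs α) (c α)) =
        ∑ α, if fs α = β then c α else 0 := by
      intro β
      rw [coeff_sum]
      simp only [coeff_monomial]
    have hp : ∀ β, coeff β (∑ α, monomial (fs α) (c α)) ≠ 0 → ∀ i, β i < p := by
      intro β hβ i
      rw [hcoeff] at hβ
      obtain ⟨α, _, hα⟩ := Finset.exists_ne_zero_of_sum_ne_zero hβ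
      have : fs α = β := by
        by_contra h
        rw [if_neg h] at hα
        exact hα rfl
      rw [← this, hfs]
      exact (α i).2
    have hzero := Lam_injective V p y D hD hone hmul (Fintype.card κ * p + 1)
      (∑ α, monomial (fs α) (c α)) (by
        intro β hβ
        by_contra hne
        have h1 := hp β hne
        have h2 : β.degree ≤ Fintype.card κ * p := by
          rw [Finsupp.degree_eq_sum]
          calc ∑ i, β i ≤ ∑ _i : κ, p := Finset.sum_le_sum fun i _ => (h1 i).le
            _ = Fintype.card κ * p := by simp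
        omega) hp hsum
    intro α
    have h1 := hcoeff (fs α)
    rw [hzero, coeff_zero] at h1
    rw [Finset.sum_eq_single α] at h1
    · simpa using h1.symm
    · intro α' _ hne
      rw [if_neg]
      intro h
      exact hne (hfsinj h)
    · simp
  have h1 := @card_le_finrank_of_dual K V _ _ _ _ _ _ _ hli
  simpa using h1

end Pool.Agent.Lib.MPc5669f
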