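import Mathlib
import Pool.Agent.Lib.MP_c5669f_al.Lower

namespace Pool.Agent.Lib.MPc5669f

open Module

variable {C K : Type*} [Field C] [Field K] [Algebra C K]
variable {ι : Type*} (e : ι → Derivation C K K)

/-- The algebra of operators generated by multiplications and the derivations. -/
def opAlg : Subalgebra C (Module.End C K) :=
  Algebra.adjoin C (Set.range (mu C (K := K)) ∪ Set.range (opE e))

theorem mu_mem (g : K) : mu C g ∈ opAlg e :=
  Algebra.subset_adjoin (Or.inl ⟨g, rfl⟩)

theorem opE_mem (i : ι) : opE e i ∈ opAlg e :=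
  Algebra.subset_adjoin (Or.inr ⟨i, rfl⟩)

/-- The same, as a `K`-subspace. -/
def opMod : Submodule K (Module.End C K) where
  carrier := opAlg e
  add_mem' := (opAlg e).add_mem
  zero_mem' := (opAlg e).zero_mem
  smul_mem' g U hU := by
    rw [smul_eq_mu_mul]
    exact (opAlg e).mul_mem (mu_mem e g) hU

theorem mem_opMod {U : Module.End C K} : U ∈ opMod e ↔ U ∈ opAlg e := Iff.rfl

/-- Right `K`-span of all nonempty words. -/
def Jinf : Submodule C (Module.End C K) :=
  Submodule.span C {U | ∃ (L : List ι) (g : K), L ≠ [] ∧ U = word e L * mu C g}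

theorem word_mul_mu_mem_Jinf {L : List ι} (hL : L ≠ []) (g : K) :
    word e L * mu C g ∈ Jinf e :=
  Submodule.subset_span ⟨L, g, hL, rfl⟩

theorem Jinf_mul_mu {U : Module.End C K} (hU : U ∈ Jinf e) (g : K) :
    U * mu C g ∈ Jinf e := by
  induction hU using Submodule.span_induction with
  | mem x hx =>
    obtain ⟨L, h, hL, rfl⟩ := hx
    rw [mul_assoc, mu_mul]
    exact word_mul_mu_mem_Jinf e hL _
  | zero => simp
  | add a b _ _ ha hb => rw [add_mul]; exact add_mem ha hb
  | smul c a _ ha => rw [smul_mul_assoc]; exact Submodule.smul_mem _ _ ha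

theorem Jinf_mul_opE {U : Module.End C K} (hU : U ∈ Jinf e) (i : ι) :
    U * opE e i ∈ Jinf e := by
  induction hU using Submodule.span_induction with
  | mem x hx =>
    obtain ⟨L, h, hL, rfl⟩ := hx
    rw [mul_assoc, mu_mul_opE, mul_sub, ← mul_assoc]
    apply sub_mem
    · have : word e L * opE e i = word e (L ++ [i]) := by rw [word_append, word_singleton]
      rw [this]
      exact word_mul_mu_mem_Jinf e (by simp) _
    · exact word_mul_mu_mem_Jinf e hL _
  | zero => simp
  | add a b _ _ ha hb => rw [add_mul]; exact add_mem ha hb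
  | smul c a _ ha => rw [smul_mul_assoc]; exact Submodule.smul_mem _ _ ha

theorem Jinf_mul {U V : Module.End C K} (hU : U ∈ Jinf e) (hV : V ∈ opAlg e) :
    U * V ∈ Jinf e := by
  induction hV using Algebra.adjoin_induction generalizing U with
  | mem x hx =>
    rcases hx with ⟨g, rfl⟩ | ⟨i, rfl⟩
    · exact Jinf_mul_mu e hU g
    · exact Jinf_mul_opE e hU i
  | algebraMap c =>
    rw [Algebra.algebraMap_eq_smul_one, mul_smul_comm, mul_one]
    exact Submodule.smul_mem _ _ hU
  | add a b _ _ ha hb => rw [mul_add]; exact add_mem (ha hU) (hb hU)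
  | mul a b _ _ ha hb => rw [← mul_assoc]; exact hb (ha hU)

theorem Jinf_le_canSpan [Fintype ι] [DecidableEq ι] (p : ℕ) [NeZero p] (hp : 2 ≤ p)
    (hbr : ∀ i j, opE e i * opE e j - opE e j * opE e i ∈ Jr e 1)
    (hpow : ∀ i, opE e i ^ p ∈ Jr e 1) : Jinf e ≤ canSpan e p := by
  apply Submodule.span_le.mpr
  rintro U ⟨L, g, hL, rfl⟩
  exact Jr_le_canSpan e p hp hbr hpow L.length (word_mul_mu_mem_Jr e hL le_rfl g)

theorem finrank_canSpan_le [Fintype ι] [DecidableEq ι] [FiniteDimensional C K] (p : ℕ) [NeZero p] :
    finrank C (canSpan e p) ≤ (p ^ Fintype.card ι - 1) * finrank C K := by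
  classical
  let I := {α : ι → Fin p // α ≠ 0}
  let Φ : (I → K) →ₗ[C] Module.End C K :=
    { toFun := fun g => ∑ α : I, word e (canM p α.1).toList * mu C (g α)
      map_add' := by
        intro g h
        rw [← Finset.sum_add_distrib]
        refine Finset.sum_congr rfl fun α _ => ?_
        rw [Pi.add_apply, mu_add, mul_add]
      map_smul' := by
        intro c g
        rw [RingHom.id_apply, Finset.smul_sum]
        refine Finset.sum_congr rfl fun α _ => ?_
        rw [Pi.smul_apply, mu_smul, mul_smul_comm] }
  have hle : canSpan e p ≤ LinearMap.range Φ := by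
    apply Submodule.span_le.mpr
    rintro U ⟨α, g, hα, rfl⟩
    refine ⟨Pi.single ⟨α, hα⟩ g, ?_⟩
    change ∑ β : I, word e (canM p β.1).toList * mu C ((Pi.single ⟨α, hα⟩ g : I → K) β) = _
    rw [Finset.sum_eq_single ⟨α, hα⟩]
    · simp
    · intro β _ hβ
      rw [Pi.single_eq_of_ne hβ, mu_zero, mul_zero]
    · simp
  have h1 : finrank C (canSpan e p) ≤ finrank C (LinearMap.range Φ) :=
    Submodule.finrank_mono hle
  have h2 : finrank C (LinearMap.range Φ) ≤ finrank C (I → K) := LinearMap.finrank_range_le Φ
  have h3 : finrank C (I → K) = Fintype.card I * finrank C K := by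
    rw [Module.finrank_pi_fintype]
    simp
  have h4 : Fintype.card I = p ^ Fintype.card ι - 1 := by
    have : Fintype.card I = Fintype.card (ι → Fin p) - 1 := by
      simp [I, Fintype.card_subtype_compl]
    rw [this]; simp
  rw [h3, h4] at h2
  exact h1.trans h2

/-- If the images of the derivations span everything, then the identity lies in the right
ideal they generate. -/
theorem one_mem_Jinf [FiniteDimensional C K]
    (htop : Submodule.span C {x | ∃ i y, x = e i y} = ⊤) : (1 : Module.End C K) ∈ Jinf e := by
  classical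
  have : Module.Finite K (Module.End C K) := Module.Finite.of_restrictScalars_finite C K _
  have : FiniteDimensional K (opMod e) := inferInstance
  obtain ⟨f, U, hfU, hexp⟩ := @exists_dual_system K K (opMod e) _ _ _ _ (fun x => evK (opMod e) x)
    (by
      intro v hv
      apply Subtype.ext
      ext x
      exact hv x)
  have hval : ∀ i j, ((U i : opMod e) : Module.End C K) (f j) = if i = j then 1 else 0 := hfU
  have key : ∀ V ∈ opAlg e, ∀ g : K, ∀ i, V * mu C g * (U i : Module.End C K)
      = V g • (U i : Module.End C K) := by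
    intro V hV g i
    have hmem : V * mu C g * (U i : Module.End C K) ∈ opMod e :=
      (opAlg e).mul_mem ((opAlg e).mul_mem hV (mu_mem e g)) (U i).2
    have h1 := congrArg Subtype.val (hexp ⟨_, hmem⟩)
    refine h1.trans ?_
    simp only [evK_apply, Submodule.coe_sum, Submodule.coe_smul, Module.End.mul_apply, hval,
      mu_apply]
    rw [Finset.sum_eq_single i]
    · simp
    · intro j _ hj
      simp [Ne.symm hj]
    · simp
  have hone : (1 : Module.End C K) = ∑ i, f i • (U i : Module.End C K) := by
    have h1 := congrArg Subtype.val (hexp ⟨1, (opAlg e).one_mem⟩)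
    refine h1.trans ?_
    simp [evK_apply]
  rw [hone]
  apply Submodule.sum_mem
  intro i _
  have hx : f i ∈ Submodule.span C {x | ∃ i y, x = e i y} := by rw [htop]; trivial
  have : ∀ x ∈ Submodule.span C {x | ∃ i y, x = e i y}, ∀ i,
      x • (U i : Module.End C K) ∈ Jinf e := by
    intro x hx
    induction hx using Submodule.span_induction with
    | mem x hx =>
      obtain ⟨l, y, rfl⟩ := hx
      intro i
      have h1 := key (opE e l) (opE_mem e l) y i
      rw [opE_apply] at h1
      rw [← h1]
      apply Jinf_mul e _ (U i).2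
      apply Jinf_mul_mu
      have := word_mul_mu_mem_Jinf e (L := [l]) (by simp) (1 : K)
      rwa [mu_one, mul_one, word_singleton] at this
    | zero => intro i; simp
    | add a b _ _ ha hb => intro i; rw [add_smul]; exact add_mem (ha i) (hb i)
    | smul c a _ ha => intro i; rw [smul_assoc]; exact Submodule.smul_mem _ _ (ha i)
  exact this _ hx i

theorem span_ne_top (p : ℕ) [Fact p.Prime] [CharP K p] [FiniteDimensional C K]
    [Fintype ι] (hli : LinearIndependent K e)
    (hbr : ∀ i j, opE e i * opE e j - opE e j * opE e i ∈ Jr e 1)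
    (hpow : ∀ i, opE e i ^ p ∈ Jr e 1) :
    Submodule.span C {x | ∃ i y, x = e i y} ≠ ⊤ := by
  classical
  intro htop
  have hpp : p.Prime := Fact.out
  have : NeZero p := ⟨hpp.ne_zero⟩
  have hone := one_mem_Jinf e htop
  have : Module.Finite K (Module.End C K) := Module.Finite.of_restrictScalars_finite C K _
  have hfd : FiniteDimensional K (opMod e) := inferInstance
  -- upper bound
  have hle : (opMod e).restrictScalars C ≤ canSpan e p := by
    intro V hV
    have h1 : (1 : Module.End C K) * V ∈ Jinf e := Jinf_mul e hone hV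
    rw [one_mul] at h1
    exact Jinf_le_canSpan e p hpp.two_le hbr hpow h1
  have h1 : finrank C ((opMod e).restrictScalars C) ≤ (p ^ Fintype.card ι - 1) * finrank C K :=
    (Submodule.finrank_mono hle).trans (finrank_canSpan_le e p)
  have h2 : finrank C ((opMod e).restrictScalars C) = finrank C K * finrank K (opMod e) := by
    have hfree : Module.Free K (opMod e) := @Module.Free.of_divisionRing K (opMod e) _ _ _
    exact (@Module.finrank_mul_finrank C K (opMod e) _ _ _ _ _ _ _ _ _ _ hfree).symm
  -- lower bound
  let W : Submodule K (Derivation C K K) := Submodule.span K (Set.range e)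
  have : FiniteDimensional K W := FiniteDimensional.span_of_finite K (Set.finite_range e)
  have hW : finrank K W = Fintype.card ι := finrank_span_eq_card hli
  let ev : K → Dual K W := fun x =>
    { toFun := fun D => (D : Derivation C K K) x
      map_add' := by intro a b; simp
      map_smul' := by intro a b; simp }
  obtain ⟨y, D, hD, -⟩ := @exists_dual_system K K W _ _ _ _ ev (by
      intro v hv
      apply Subtype.ext
      ext x
      exact hv x)
  have hDmem : ∀ D' ∈ W, ((D' : Derivation C K K) : K →ₗ[C] K) ∈ opMod e := by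
    intro D' hD'
    induction hD' using Submodule.span_induction with
    | mem x hx => obtain ⟨i, rfl⟩ := hx; exact opE_mem e i
    | zero => exact (opMod e).zero_mem
    | add a b _ _ ha hb => exact (opMod e).add_mem ha hb
    | smul c a _ ha => exact (opMod e).smul_mem c ha
  have h3 := @pow_le_finrank C K _ _ _ _ _ _ (opMod e) hfd p _ _ y
    (fun i => (D i : Derivation C K K)) hD (opAlg e).one_mem
    (fun U hU i => (opAlg e).mul_mem hU (hDmem _ (D i).2))
  rw [Fintype.card_fin, hW] at h3
  have hpos : 0 < finrank C K := finrank_pos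
  have hpp' : 0 < p ^ Fintype.card ι := pow_pos hpp.pos _
  rw [h2] at h1
  have h4 : finrank C K * p ^ Fintype.card ι ≤ (p ^ Fintype.card ι - 1) * finrank C K :=
    (Nat.mul_le_mul_left _ h3).trans h1
  rw [mul_comm] at h4
  have h5 := Nat.le_of_mul_le_mul_right h4 hpos
  omega

end Pool.Agent.Lib.MPc5669f
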