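import Mathlib
import Pool.Agent.Lib.MP_c5669f_al.Abstract

namespace Pool.Agent.Lib.MPc5669f

open Module

/-! ### Alternating matrices -/

theorem sum_alternating {R n : Type*} [AddCommGroup R] [Fintype n] [DecidableEq n]
    (A : n → n → R) (hanti : ∀ i j, A i j + A j i = 0) (hdiag : ∀ i, A i i = 0) :
    ∑ i, ∑ j, A i j = 0 := by
  rw [← Fintype.sum_prod_type']
  refine Finset.sum_involution (fun x _ => x.swap) ?_ ?_ (fun x _ => Finset.mem_univ _)
    (fun x _ => Prod.swap_swap x)
  · rintro ⟨i, j⟩ _
    exact hanti i j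
  · rintro ⟨i, j⟩ _ hne heq
    apply hne
    have : j = i := congrArg Prod.fst heq
    subst this
    exact hdiag _

theorem trace_zero {K n : Type*} [Field K] [Fintype n] [DecidableEq n]
    (P H : Matrix n n K) (hdiag : ∀ i, P i i = 0) (hanti : ∀ i j, P j i = - P i j)
    (hdet : P.det ≠ 0) (hsym : ∀ i j, (P.transpose * H) i j = (P.transpose * H) j i) :
    ∑ i, H i i = 0 := by
  have hdet' : IsUnit P.transpose.det := by
    rw [Matrix.det_transpose]; exact isUnit_iff_ne_zero.mpr hdet
  set Q := P.transpose with hQ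
  have hQP : Q = - P := by
    ext i j
    simp [hQ, hanti i j]
  have hQt : Q.transpose = - Q := by
    ext i j
    rw [Matrix.transpose_apply, Matrix.neg_apply, hQP, Matrix.neg_apply, Matrix.neg_apply,
      hanti i j]
  have hQdiag : ∀ i, Q i i = 0 := fun i => hdiag i
  set G := Q⁻¹ with hG
  have hGQ : G * Q = 1 := Matrix.nonsing_inv_mul _ hdet'
  have hQG : Q * G = 1 := Matrix.mul_nonsing_inv _ hdet'
  have hGt : G.transpose = - G := by
    rw [hG, Matrix.transpose_nonsing_inv, hQt]
    apply Matrix.inv_eq_left_inv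
    rw [neg_mul_neg, ← hG, hGQ]
  have hGanti : ∀ i j, G j i = - G i j := by
    intro i j
    have := congrFun (congrFun hGt i) j
    simpa using this
  have hGdiag : ∀ i, G i i = 0 := by
    intro i
    have h1 : G = G * Q * G := by rw [hGQ, one_mul]
    have h2 : G i i = ∑ j, ∑ k, G i k * Q k j * G j i := by
      conv_lhs => rw [h1]
      rw [Matrix.mul_apply]
      refine Finset.sum_congr rfl fun j _ => ?_
      rw [Matrix.mul_apply, Finset.sum_mul]
    rw [h2]
    apply sum_alternating
    · intro j k
      have h3 : Q j k = - Q k j := by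
        have := congrFun (congrFun hQt k) j
        simpa using this
      rw [hGanti i j, hGanti i k, h3]
      ring
    · intro j
      rw [hQdiag]; ring
  have hH : H = G * (Q * H) := by rw [← Matrix.mul_assoc, hGQ, Matrix.one_mul]
  have h1 : ∑ i, H i i = ∑ i, ∑ j, G i j * (Q * H) j i := by
    refine Finset.sum_congr rfl fun i _ => ?_
    conv_lhs => rw [hH]
    rw [Matrix.mul_apply]
  rw [h1]
  apply sum_alternating
  · intro i j
    rw [hGanti i j, hsym i j]; ring
  · intro i
    rw [hGdiag]; ring

/-! ### Poisson brackets on fields -/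

variable {C K : Type*} [Field C] [Field K] [Algebra C K]

/-- A Poisson bracket `{a, b} = X a b` on the `C`-algebra `K`. -/
structure PoissonField (C K : Type*) [Field C] [Field K] [Algebra C K] where
  /-- the Hamiltonian derivation `{a, -}` -/
  X : K →ₗ[C] Derivation C K K
  alt : ∀ a, X a a = 0
  jac : ∀ a b, ⁅X a, X b⁆ = X (X a b)

namespace PoissonField

variable (B : PoissonField C K)

theorem anti (a b : K) : B.X a b = - B.X b a := by
  have h := B.alt (a + b)
  rw [B.X.map_add, Derivation.add_apply, (B.X a).map_add, (B.X b).map_add, B.alt, B.alt] at h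
  rw [zero_add, add_zero] at h
  exact eq_neg_of_add_eq_zero_left h

theorem X_mul (a b : K) : B.X (a * b) = a • B.X b + b • B.X a := by
  ext c
  rw [B.anti, (B.X c).leibniz, Derivation.add_apply, Derivation.smul_apply, Derivation.smul_apply,
    B.anti b c, B.anti a c]
  simp only [smul_eq_mul]
  ring

/-- Poisson derivations that kill every Casimir element. -/
def IsPi (Y : Derivation C K K) : Prop :=
  (∀ a, ⁅Y, B.X a⁆ = B.X (Y a)) ∧ ∀ z, B.X z = 0 → Y z = 0

theorem isPi_X (a : K) : B.IsPi (B.X a) := by
  refine ⟨fun b => B.jac a b, fun z hz => ?_⟩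
  rw [B.anti, hz]; simp

theorem isPi_lie {Y Z : Derivation C K K} (hY : B.IsPi Y) (hZ : B.IsPi Z) :
    B.IsPi ⁅Y, Z⁆ := by
  refine ⟨fun a => ?_, fun z hz => ?_⟩
  · rw [lie_lie, hZ.1, hY.1, hY.1, hZ.1, ← map_sub, Derivation.commutator_apply]
  · rw [Derivation.commutator_apply, hY.2 z hz, hZ.2 z hz]; simp

/-- The iterated commutator in characteristic `p`. -/
theorem pow_p_commutator (p : ℕ) [Fact p.Prime] [CharP C p] (T U : Module.End C K) :
    T ^ p * U - U * T ^ p = ((LinearMap.mulLeft C T - LinearMap.mulRight C T :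
      Module.End C (Module.End C K)) ^ p) U := by
  have : CharP (Module.End C (Module.End C K)) p :=
    charP_of_injective_algebraMap (algebraMap C _).injective p
  have h := sub_pow_char_of_commute (R := Module.End C (Module.End C K)) p
    (x := LinearMap.mulLeft C T) (y := LinearMap.mulRight C T)
    (LinearMap.commute_mulLeft_right (R := C) T T)
  rw [h, LinearMap.sub_apply, LinearMap.pow_mulLeft, LinearMap.pow_mulRight]
  simp

theorem pow_p_mu (p : ℕ) [Fact p.Prime] [CharP C p] (Y : Derivation C K K) (g : K) :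
    (Y : K →ₗ[C] K) ^ p * mu C g - mu C g * (Y : K →ₗ[C] K) ^ p
      = mu C (((Y : K →ₗ[C] K) ^ p) g) := by
  have h : ∀ n : ℕ, ((LinearMap.mulLeft C (Y : K →ₗ[C] K) -
      LinearMap.mulRight C (Y : K →ₗ[C] K) : Module.End C (Module.End C K)) ^ n) (mu C g) = mu C (((Y : K →ₗ[C] K) ^ n) g) := by
    intro n
    induction n with
    | zero => simp
    | succ n ih =>
      rw [pow_succ', Module.End.mul_apply, ih, pow_succ', Module.End.mul_apply]
      ext x
      simp [mu_apply, mul_comm]
  have h1 := pow_p_commutator p (Y : K →ₗ[C] K) (mu C g)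
  exact h1.trans (h p)

/-- The `p`-th power of a derivation in characteristic `p`. -/
def powDer (p : ℕ) [Fact p.Prime] [CharP C p] (Y : Derivation C K K) : Derivation C K K :=
  Derivation.mk' ((Y : K →ₗ[C] K) ^ p : Module.End C K) (by
    intro a b
    have h := congrArg (fun T : Module.End C K => T b) (pow_p_mu p Y a)
    simp only [LinearMap.sub_apply, Module.End.mul_apply, mu_apply] at h
    rw [sub_eq_iff_eq_add] at h
    rw [h, smul_eq_mul, smul_eq_mul]
    ring)

theorem powDer_coe (p : ℕ) [Fact p.Prime] [CharP C p] (Y : Derivation C K K) :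
    (powDer p Y : K →ₗ[C] K) = ((Y : K →ₗ[C] K) ^ p : Module.End C K) := rfl

theorem powDer_apply (p : ℕ) [Fact p.Prime] [CharP C p] (Y : Derivation C K K) (x : K) :
    powDer p Y x = ((Y : K →ₗ[C] K) ^ p : Module.End C K) x := rfl

theorem isPi_pow (p : ℕ) [Fact p.Prime] [CharP C p] {Y : Derivation C K K} (hY : B.IsPi Y) :
    B.IsPi (powDer p Y) := by
  refine ⟨fun a => ?_, fun z hz => ?_⟩
  · have h : ∀ n : ℕ, ((LinearMap.mulLeft C (Y : K →ₗ[C] K) -
        LinearMap.mulRight C (Y : K →ₗ[C] K) : Module.End C (Module.End C K)) ^ n)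
          (B.X a : K →ₗ[C] K)
        = (B.X (((Y : K →ₗ[C] K) ^ n) a) : K →ₗ[C] K) := by
      intro n
      induction n with
      | zero => simp
      | succ n ih =>
        rw [pow_succ', Module.End.mul_apply, ih, pow_succ', Module.End.mul_apply]
        have h2 := hY.1 (((Y : K →ₗ[C] K) ^ n) a)
        ext x
        have h3 := congrArg (fun D : Derivation C K K => D x) h2
        simpa [Derivation.commutator_apply] using h3
    have h1 := pow_p_commutator p (Y : K →ₗ[C] K) (B.X a : K →ₗ[C] K)
    rw [h] at h1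
    ext x
    have h2 := congrArg (fun T : Module.End C K => T x) h1
    rw [Derivation.commutator_apply, powDer_apply, powDer_apply, powDer_apply]
    simpa using h2
  · rw [powDer_apply]
    obtain ⟨q, hq⟩ : ∃ q, p = q + 1 := ⟨p - 1, by have := (Fact.out : p.Prime).pos; omega⟩
    rw [hq, pow_succ, Module.End.mul_apply]
    have : (Y : K →ₗ[C] K) z = 0 := hY.2 z hz
    rw [this, map_zero]

end PoissonField

end Pool.Agent.Lib.MPc5669f
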