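import Mathlib
import Pool.Agent.Lib.MP_c5669f_al.PoissonField

namespace Pool.Agent.Lib.MPc5669f

open Module

variable {C K : Type*} [Field C] [Field K] [Algebra C K]

theorem lie_smul_der (D E : Derivation C K K) (g : K) :
    ⁅D, g • E⁆ = D g • E + g • ⁅D, E⁆ := by
  ext x
  simp only [Derivation.commutator_apply, Derivation.smul_apply, Derivation.add_apply,
    Derivation.leibniz, smul_eq_mul]
  ring

theorem der_sum_apply {ι : Type*} (s : Finset ι) (D : ι → Derivation C K K) (x : K) :
    (∑ i ∈ s, D i) x = ∑ i ∈ s, D i x := by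
  classical
  induction s using Finset.induction_on with
  | empty => simp
  | insert i s hi ih => rw [Finset.sum_insert hi, Finset.sum_insert hi, Derivation.add_apply, ih]

theorem finite_derivation [FiniteDimensional C K] :
    Module.Finite K (Derivation C K K) := by
  have h1 : Module.Finite K (K →ₗ[C] K) := Module.Finite.of_restrictScalars_finite C K _
  let j : Derivation C K K →ₗ[K] (K →ₗ[C] K) :=
    { toFun := fun D => (D : K →ₗ[C] K)
      map_add' := by intro a b; rfl
      map_smul' := by intro a b; rfl }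
  have hj : Function.Injective j := by
    intro a b h
    ext x
    exact congrArg (fun T : K →ₗ[C] K => T x) h
  exact Module.Finite.of_injective j hj

namespace PoissonField

variable (B : PoissonField C K)

/-- The core computation: for a relation `Y = ∑ c_i e_i` inside the Poisson derivations, with
`e` adapted to the Hamiltonian ones, `∑ e_i (c_i) = 0`. -/
theorem sum_apply_eq_zero {ι₁ ι₂ : Type*} [Fintype ι₁] [Fintype ι₂]
    (a : ι₁ → K) (Z : ι₂ → Derivation C K K) (hZ : ∀ j, B.IsPi (Z j))
    (hli : LinearIndependent K (Sum.elim (fun l => B.X (a l)) Z))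
    (hspan : ∀ f, B.X f ∈ Submodule.span K (Set.range fun l => B.X (a l)))
    (Y : Derivation C K K) (hY : B.IsPi Y) (h : ι₁ → K) (g : ι₂ → K)
    (hexp : Y = ∑ l, h l • B.X (a l) + ∑ j, g j • Z j) :
    ∑ l, B.X (a l) (h l) + ∑ j, Z j (g j) = 0 := by
  classical
  -- step 1: the coefficients `g j` are Casimir elements
  have hcas : ∀ j f, B.X f (g j) = 0 := by
    intro j f
    have hmem : ∑ j, B.X f (g j) • Z j ∈ Submodule.span K (Set.range fun l => B.X (a l)) := by
      have h1 : ⁅B.X f, Y⁆ = ⁅B.X f, ∑ l, h l • B.X (a l) + ∑ j, g j • Z j⁆ := by rw [← hexp]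
      rw [lie_add, lie_sum, lie_sum] at h1
      simp only [lie_smul_der] at h1
      rw [Finset.sum_add_distrib, Finset.sum_add_distrib] at h1
      have h2 : ∑ j, B.X f (g j) • Z j = ⁅B.X f, Y⁆ - (∑ l, B.X f (h l) • B.X (a l)
          + ∑ l, h l • ⁅B.X f, B.X (a l)⁆) - ∑ j, g j • ⁅B.X f, Z j⁆ := by
        rw [h1]; abel
      rw [h2]
      have hneg : ∀ W : Derivation C K K, B.IsPi W → ⁅B.X f, W⁆ = - B.X (W f) := by
        intro W hW
        rw [← lie_skew, hW.1]
      have hsub : Set.range (fun l => B.X (a l)) ⊆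
          (Submodule.span K (Set.range fun l => B.X (a l)) : Set (Derivation C K K)) :=
        Submodule.subset_span
      apply sub_mem
      · apply sub_mem
        · rw [hneg Y hY]; exact neg_mem (hspan _)
        · apply add_mem
          · exact Submodule.sum_mem _ fun l _ => Submodule.smul_mem _ _ (hsub ⟨l, rfl⟩)
          · refine Submodule.sum_mem _ fun l _ => Submodule.smul_mem _ _ ?_
            rw [B.jac]; exact hspan _
      · refine Submodule.sum_mem _ fun j _ => Submodule.smul_mem _ _ ?_
        rw [hneg _ (hZ j)]; exact neg_mem (hspan _)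
    rw [Submodule.mem_span_range_iff_exists_fun] at hmem
    obtain ⟨d, hd⟩ := hmem
    rw [Fintype.linearIndependent_iff] at hli
    have h3 := hli (Sum.elim d (fun j => - B.X f (g j))) (by
      rw [Fintype.sum_sum_type]
      simp only [Sum.elim_inl, Sum.elim_inr]
      rw [hd]
      simp) (Sum.inr j)
    simpa using h3
  have hcasX : ∀ j, B.X (g j) = 0 := by
    intro j
    ext f
    rw [B.anti, hcas]; simp
  have hsecond : ∑ j, Z j (g j) = 0 :=
    Finset.sum_eq_zero fun j _ => (hZ j).2 _ (hcasX j)
  rw [hsecond, add_zero]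
  -- step 2: the Hamiltonian part of `Y` is Poisson
  have hrel : ∀ f x, ∑ l, B.X (h l) f * B.X (a l) x = ∑ l, B.X (a l) f * B.X (h l) x := by
    intro f x
    have h1 : ⁅Y, B.X f⁆ = B.X (Y f) := hY.1 f
    have h2 : ⁅Y, B.X f⁆ = ∑ l, (h l • ⁅B.X (a l), B.X f⁆ - B.X f (h l) • B.X (a l))
        + ∑ j, g j • ⁅Z j, B.X f⁆ := by
      rw [← lie_skew, hexp, lie_add, lie_sum, lie_sum]
      simp only [lie_smul_der]
      rw [neg_add, ← Finset.sum_neg_distrib, ← Finset.sum_neg_distrib]
      congr 1
      · refine Finset.sum_congr rfl fun l _ => ?_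
        rw [← lie_skew (B.X (a l)) (B.X f)]
        simp only [smul_neg, neg_add]
        abel
      · refine Finset.sum_congr rfl fun j _ => ?_
        rw [hcas, zero_smul, zero_add, ← smul_neg, lie_skew]
    have h3 : Y f = ∑ l, h l * B.X (a l) f + ∑ j, g j * Z j f := by
      conv_lhs => rw [hexp]
      rw [Derivation.add_apply, der_sum_apply, der_sum_apply]
      rfl
    have h4 : B.X (Y f) = ∑ l, (h l • B.X (B.X (a l) f) + B.X (a l) f • B.X (h l))
        + ∑ j, g j • B.X (Z j f) := by
      rw [h3, map_add, map_sum, map_sum]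
      congr 1
      · exact Finset.sum_congr rfl fun l _ => B.X_mul _ _
      · refine Finset.sum_congr rfl fun j _ => ?_
        rw [B.X_mul, hcasX, smul_zero, add_zero]
    have h5 : ∑ l, (h l • B.X (B.X (a l) f) - B.X f (h l) • B.X (a l))
        = ∑ l, (h l • B.X (B.X (a l) f) + B.X (a l) f • B.X (h l)) := by
      have h6 := h1.symm.trans h2
      rw [h4] at h6
      have h7 : ∑ j, g j • ⁅Z j, B.X f⁆ = ∑ j, g j • B.X (Z j f) :=
        Finset.sum_congr rfl fun j _ => by rw [(hZ j).1]
      rw [h7] at h6
      have h8 := add_right_cancel h6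
      rw [h8]
      exact Finset.sum_congr rfl fun l _ => by rw [B.jac]
    rw [Finset.sum_sub_distrib, Finset.sum_add_distrib] at h5
    have h9 : - ∑ l, B.X f (h l) • B.X (a l) = ∑ l, B.X (a l) f • B.X (h l) := by
      rw [sub_eq_add_neg] at h5
      exact add_left_cancel h5
    have h10 := congrArg (fun D : Derivation C K K => D x) h9
    simp only [Derivation.neg_apply, der_sum_apply, Derivation.smul_apply, smul_eq_mul] at h10
    rw [← h10, ← Finset.sum_neg_distrib]
    refine Finset.sum_congr rfl fun l _ => ?_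
    rw [B.anti (h l) f]; ring
  -- step 3: the matrix argument
  let P : Matrix ι₁ ι₁ K := fun l i => B.X (a l) (a i)
  let H : Matrix ι₁ ι₁ K := fun l i => B.X (h l) (a i)
  have hdet : P.det ≠ 0 := by
    intro hdet
    rw [← Matrix.exists_vecMul_eq_zero_iff] at hdet
    obtain ⟨v, hv, hvP⟩ := hdet
    apply hv
    have hE : ∑ l, v l • B.X (a l) = 0 := by
      ext f
      rw [der_sum_apply]
      simp only [Derivation.smul_apply, smul_eq_mul, Derivation.zero_apply]
      have h1 : ∀ D ∈ Submodule.span K (Set.range fun l => B.X (a l)),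
          ∑ l, v l * (D : Derivation C K K) (a l) = 0 := by
        intro D hD
        induction hD using Submodule.span_induction with
        | mem D hD =>
          obtain ⟨m, rfl⟩ := hD
          have h2 := congrFun hvP m
          simp only [Matrix.vecMul, dotProduct, P, Pi.zero_apply] at h2
          rw [← neg_eq_zero, ← Finset.sum_neg_distrib, ← h2]
          refine Finset.sum_congr rfl fun l _ => ?_
          simp only
          rw [B.anti (a m) (a l)]; ring
        | zero => simp
        | add D E _ _ hD hE =>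
          simp only [Derivation.add_apply, mul_add, Finset.sum_add_distrib, hD, hE, add_zero]
        | smul c D _ hD =>
          simp only [Derivation.smul_apply, smul_eq_mul]
          have : ∑ l, v l * (c * D (a l)) = c * ∑ l, v l * D (a l) := by
            rw [Finset.mul_sum]; exact Finset.sum_congr rfl fun l _ => by ring
          rw [this, hD, mul_zero]
      rw [← neg_eq_zero, ← Finset.sum_neg_distrib, ← h1 _ (hspan f)]
      refine Finset.sum_congr rfl fun l _ => ?_
      rw [B.anti f (a l)]; ring
    rw [Fintype.linearIndependent_iff] at hli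
    funext l
    have h3 := hli (Sum.elim v 0) (by
      rw [Fintype.sum_sum_type]
      simp only [Sum.elim_inl, Sum.elim_inr, Pi.zero_apply, zero_smul, Finset.sum_const_zero,
        add_zero]
      exact hE) (Sum.inl l)
    simpa using h3
  have htr := trace_zero P H (fun i => B.alt _) (fun i j => B.anti _ _) hdet (by
    intro i j
    simp only [Matrix.mul_apply, Matrix.transpose_apply, P, H]
    have h1 := hrel (a i) (a j)
    rw [← h1]
    exact Finset.sum_congr rfl fun l _ => by ring)
  rw [← neg_eq_zero, ← Finset.sum_neg_distrib, ← htr]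
  refine Finset.sum_congr rfl fun l _ => ?_
  simp only [H]
  rw [B.anti (h l) (a l)]

theorem mem_Jr_one {ι₁ ι₂ : Type*} [Fintype ι₁] [Fintype ι₂]
    (a : ι₁ → K) (Z : ι₂ → Derivation C K K) (hZ : ∀ j, B.IsPi (Z j))
    (hli : LinearIndependent K (Sum.elim (fun l => B.X (a l)) Z))
    (hspan : ∀ f, B.X f ∈ Submodule.span K (Set.range fun l => B.X (a l)))
    (Y : Derivation C K K) (hY : B.IsPi Y)
    (hmem : Y ∈ Submodule.span K (Set.range (Sum.elim (fun l => B.X (a l)) Z))) :
    (Y : K →ₗ[C] K) ∈ Jr (Sum.elim (fun l => B.X (a l)) Z) 1 := by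
  rw [Submodule.mem_span_range_iff_exists_fun] at hmem
  obtain ⟨c, hc⟩ := hmem
  have hzero := B.sum_apply_eq_zero a Z hZ hli hspan Y hY (fun l => c (Sum.inl l))
    (fun j => c (Sum.inr j)) (by
      rw [← hc, Fintype.sum_sum_type]; rfl)
  set e := Sum.elim (fun l => B.X (a l)) Z with he
  have hz : ∑ i, e i (c i) = 0 := by
    rw [Fintype.sum_sum_type]; exact hzero
  have hY2 : (Y : K →ₗ[C] K) = ∑ i, opE e i * mu C (c i) := by
    have h1 : ∑ i, opE e i * mu C (c i) = ∑ i, (mu C (c i) * opE e i + mu C (e i (c i))) :=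
      Finset.sum_congr rfl fun i _ => opE_mul_mu e i (c i)
    rw [h1]
    ext x
    rw [← hc]
    simp only [LinearMap.sum_apply, LinearMap.add_apply, Module.End.mul_apply, mu_apply, opE_apply,
      Finset.sum_add_distrib]
    rw [← Finset.sum_mul, hz, zero_mul, add_zero, Derivation.coeFn_coe, der_sum_apply]
    rfl
  rw [hY2]
  refine Submodule.sum_mem _ fun i _ => ?_
  have := word_mul_mu_mem_Jr e (L := [i]) (s := 1) (by simp) (by simp) (c i)
  rwa [word_singleton] at this

/-- The brackets of a Poisson field which is finite over its base do not span it. -/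
theorem brackets_span_ne_top (p : ℕ) [Fact p.Prime] [CharP K p] [FiniteDimensional C K] :
    Submodule.span C {x | ∃ a b, x = B.X a b} ≠ ⊤ := by
  classical
  have hC : CharP C p := (algebraMap C K).charP (algebraMap C K).injective p
  have hfin := finite_derivation (C := C) (K := K)
  obtain ⟨b₁, hb₁, hspan₁, hli₁⟩ := exists_linearIndependent K (Set.range B.X)
  have hsub : b₁ ⊆ {Y | B.IsPi Y} := by
    intro v hv
    obtain ⟨f, rfl⟩ := hb₁ hv
    exact B.isPi_X f
  obtain ⟨b₂, hb₂, hb₁₂, hspan₂, hli₂⟩ := exists_linearIndepOn_id_extension hli₁ hsub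
  have hfb₂ : b₂.Finite := hli₂.setFinite
  have hfb₁ : b₁.Finite := hfb₂.subset hb₁₂
  have : Fintype b₁ := hfb₁.fintype
  have : Fintype (b₂ \ b₁ : Set _) := (hfb₂.subset Set.sdiff_subset).fintype
  choose a ha using fun v : b₁ => hb₁ v.2
  let Z : (b₂ \ b₁ : Set _) → Derivation C K K := fun v => v.1
  have hZ : ∀ j, B.IsPi (Z j) := fun j => hb₂ j.2.1
  have hXa : (fun l => B.X (a l)) = (fun l : b₁ => (l : Derivation C K K)) := funext ha
  have hspan : ∀ f, B.X f ∈ Submodule.span K (Set.range fun l => B.X (a l)) := by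
    intro f
    rw [hXa, Subtype.range_coe, hspan₁]
    exact Submodule.subset_span ⟨f, rfl⟩
  let φ : b₁ ⊕ (b₂ \ b₁ : Set _) → b₂ :=
    Sum.elim (fun v => ⟨v.1, hb₁₂ v.2⟩) (fun v => ⟨v.1, v.2.1⟩)
  have hφ : Function.Injective φ := by
    rintro (⟨v, hv⟩ | ⟨v, hv⟩) (⟨w, hw⟩ | ⟨w, hw⟩) hvw
    · have h1 : v = w := congrArg Subtype.val hvw
      subst h1; rfl
    · have h1 : v = w := congrArg Subtype.val hvw
      subst h1; exact absurd hv hw.2
    · have h1 : v = w := congrArg Subtype.val hvw
      subst h1; exact absurd hw hv.2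
    · have h1 : v = w := congrArg Subtype.val hvw
      subst h1; rfl
  have hcomp : Sum.elim (fun l => B.X (a l)) Z = (fun v : b₂ => (v : Derivation C K K)) ∘ φ := by
    funext v
    rcases v with v | v
    · exact ha v
    · rfl
  have hli : LinearIndependent K (Sum.elim (fun l => B.X (a l)) Z) := by
    rw [hcomp]
    exact LinearIndependent.comp hli₂ φ hφ
  have hrange : Set.range (Sum.elim (fun l => B.X (a l)) Z) = b₂ := by
    rw [Set.Sum.elim_range, hXa, Subtype.range_coe]
    have : Set.range Z = b₂ \ b₁ := Subtype.range_coe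
    rw [this, Set.union_sdiff_cancel hb₁₂]
  have hmem : ∀ Y, B.IsPi Y →
      (Y : K →ₗ[C] K) ∈ Jr (Sum.elim (fun l => B.X (a l)) Z) 1 := by
    intro Y hY
    apply B.mem_Jr_one a Z hZ hli hspan Y hY
    rw [hrange]
    exact hspan₂ hY
  have hePi : ∀ i, B.IsPi (Sum.elim (fun l => B.X (a l)) Z i) := by
    rintro (l | j)
    · exact B.isPi_X _
    · exact hZ j
  have hAT := span_ne_top (Sum.elim (fun l => B.X (a l)) Z) p hli
    (by
      intro i j
      have h1 := hmem _ (B.isPi_lie (hePi i) (hePi j))
      have h2 : ((⁅Sum.elim (fun l => B.X (a l)) Z i, Sum.elim (fun l => B.X (a l)) Z j⁆ :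
          Derivation C K K) : K →ₗ[C] K) = opE (Sum.elim (fun l => B.X (a l)) Z) i *
          opE (Sum.elim (fun l => B.X (a l)) Z) j - opE (Sum.elim (fun l => B.X (a l)) Z) j *
          opE (Sum.elim (fun l => B.X (a l)) Z) i := by
        ext x
        rfl
      rwa [h2] at h1)
    (by
      intro i
      exact hmem _ (B.isPi_pow p (hePi i)))
  intro htop
  apply hAT
  rw [eq_top_iff, ← htop]
  apply Submodule.span_le.mpr
  rintro x ⟨f, g, rfl⟩
  -- a bracket is in the span of the values of the `e i`
  have h1 := hspan f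
  rw [Submodule.mem_span_range_iff_exists_fun] at h1
  obtain ⟨c, hc⟩ := h1
  have h2 := hmem _ (B.isPi_X f)
  have h3 : ∀ U ∈ Jr (Sum.elim (fun l => B.X (a l)) Z) 1, ∀ g : K,
      U g ∈ Submodule.span C {x | ∃ i y, x = (Sum.elim (fun l => B.X (a l)) Z) i y} := by
    intro U hU
    induction hU using Submodule.span_induction with
    | mem U hU =>
      obtain ⟨L, c, hL, hs, rfl⟩ := hU
      intro g
      obtain ⟨i, L', rfl⟩ := List.exists_cons_of_ne_nil hL
      rw [word_cons]
      exact Submodule.subset_span ⟨i, _, rfl⟩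
    | zero => intro g; simp
    | add U V _ _ hU hV => intro g; exact add_mem (hU g) (hV g)
    | smul c U _ hU => intro g; exact Submodule.smul_mem _ _ (hU g)
  exact h3 _ h2 g

end PoissonField

end Pool.Agent.Lib.MPc5669f
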