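import Mathlib
import Pool.Agent.Lib.MP_c5669f_al.PoissonMain

namespace Pool.Agent.Lib.MPc5669f

open Module MvPolynomial

section Ext

variable {k P K : Type*} [Field k] [CommRing P] [IsDomain P] [Algebra k P] [Field K] [Algebra P K]
  [Algebra k K] [IsScalarTower k P K] [IsFractionRing P K]

/-- A derivation of a domain extends to its fraction field. -/
theorem exists_extDer (D : Derivation k P P) :
    ∃ D' : Derivation k K K, ∀ a, D' (algebraMap P K a) = algebraMap P K (D a) := by
  let D₁ : Derivation k P K := (Algebra.linearMap P K).compDer D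
  let f : Ω[P⁄k] →ₗ[P] K := D₁.liftKaehlerDifferential
  have hu : ∀ x : nonZeroDivisors P, IsUnit (algebraMap P (Module.End P K) x) := by
    intro x
    rw [Module.End.isUnit_iff]
    have hx : algebraMap P K x ≠ 0 := by
      rw [Ne, FaithfulSMul.algebraMap_eq_zero_iff]
      exact nonZeroDivisors.ne_zero x.2
    constructor
    · intro a b hab
      simp only [Module.algebraMap_end_apply, Algebra.smul_def] at hab
      exact mul_left_cancel₀ hx hab
    · intro b
      refine ⟨(algebraMap P K x)⁻¹ * b, ?_⟩
      simp only [Module.algebraMap_end_apply, Algebra.smul_def]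
      field_simp
  let g : Ω[K⁄k] →ₗ[P] K := IsLocalizedModule.lift (nonZeroDivisors P)
    (KaehlerDifferential.map k k P K) f hu
  refine ⟨(LinearMap.extendScalarsOfIsLocalization (nonZeroDivisors P) K g).compDer
    (KaehlerDifferential.D k K), ?_⟩
  intro a
  have h1 : g ((KaehlerDifferential.map k k P K) (KaehlerDifferential.D k P a))
      = f (KaehlerDifferential.D k P a) := IsLocalizedModule.lift_apply _ _ _ _ _
  rw [KaehlerDifferential.map_D] at h1
  have h2 : f (KaehlerDifferential.D k P a) = D₁ a :=
    Derivation.liftKaehlerDifferential_comp_D _ _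
  rw [h2] at h1
  exact h1

end Ext

end Pool.Agent.Lib.MPc5669f
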