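import Mathlib
import Pool.Agent.Lib.MP_c5669f_al.Ext

namespace Pool.Agent.Lib.MPc5669f

open Module MvPolynomial

variable (k : Type*) [Field k] (n : ℕ)

/-- The rational function field. -/
abbrev RF := FractionRing (MvPolynomial (Fin n) k)

/-- The partial derivatives on the rational function field. -/
noncomputable def dK (i : Fin n) : Derivation k (RF k n) (RF k n) :=
  Classical.choose (exists_extDer (K := RF k n) (pderiv i : Derivation k (MvPolynomial (Fin n) k) _))

theorem dK_algebraMap (i : Fin n) (a : MvPolynomial (Fin n) k) :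
    dK k n i (algebraMap _ (RF k n) a) = algebraMap _ (RF k n) (pderiv i a) :=
  Classical.choose_spec
    (exists_extDer (K := RF k n) (pderiv i : Derivation k (MvPolynomial (Fin n) k) _)) a

/-- The subfield of constants of all partial derivatives. -/
noncomputable def Cst : Subfield (RF k n) where
  carrier := {x | ∀ i, dK k n i x = 0}
  mul_mem' := by
    intro a b ha hb i
    rw [Derivation.leibniz, ha i, hb i]; simp
  one_mem' := by intro i; simp
  add_mem' := by
    intro a b ha hb i
    rw [map_add, ha i, hb i]; simp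
  zero_mem' := by intro i; simp
  neg_mem' := by
    intro a ha i
    rw [map_neg, ha i]; simp
  inv_mem' := by
    intro a ha i
    rw [Derivation.leibniz_inv, ha i]; simp

theorem mem_Cst {x : RF k n} : x ∈ Cst k n ↔ ∀ i, dK k n i x = 0 := Iff.rfl

/-- The partial derivatives, as derivations over the constants. -/
noncomputable def dC (i : Fin n) : Derivation (Cst k n) (RF k n) (RF k n) :=
  Derivation.mk'
    { toFun := dK k n i
      map_add' := (dK k n i).map_add
      map_smul' := by
        intro c x
        have hc : dK k n i (c : RF k n) = 0 := c.2 i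
        change dK k n i ((c : RF k n) * x) = (c : RF k n) * dK k n i x
        rw [Derivation.leibniz, hc]; simp }
    (fun a b => (dK k n i).leibniz a b)

theorem dC_apply (i : Fin n) (x : RF k n) : dC k n i x = dK k n i x := rfl

theorem dC_algebraMap (i : Fin n) (a : MvPolynomial (Fin n) k) :
    dC k n i (algebraMap _ (RF k n) a) = algebraMap _ (RF k n) (pderiv i a) :=
  dK_algebraMap k n i a

/-- The coordinates. -/
noncomputable def xK (i : Fin n) : RF k n :=
  algebraMap (MvPolynomial (Fin n) k) (RF k n) (X i)

theorem dC_xK (i j : Fin n) : dC k n i (xK k n j) = if i = j then 1 else 0 := by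
  rw [xK, dC_algebraMap, pderiv_X]
  by_cases h : i = j
  · subst h; simp
  · have h' : j ≠ i := fun h' => h h'.symm
    simp [h, h']

variable (p : ℕ) [Fact p.Prime] [CharP k p]

omit [Fact p.Prime] in
theorem charP_RF : CharP (RF k n) p :=
  charP_of_injective_algebraMap (algebraMap k (RF k n)).injective p

omit [Fact p.Prime] in
include p in
theorem pow_p_mem_Cst (x : RF k n) : x ^ p ∈ Cst k n := by
  intro i
  have : CharP (RF k n) p := charP_RF k n p
  rw [Derivation.leibniz_pow, ← Nat.cast_smul_eq_nsmul (RF k n), CharP.cast_eq_zero, zero_smul]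

theorem C_mem_Cst (c : k) : algebraMap _ (RF k n) (C c : MvPolynomial (Fin n) k) ∈ Cst k n := by
  intro i
  rw [dK_algebraMap]; simp

include p in
/-- Each rational function is a constant times a polynomial. -/
theorem exists_smul_eq (z : RF k n) :
    ∃ (c : Cst k n) (a : MvPolynomial (Fin n) k), z = c • algebraMap _ (RF k n) a := by
  obtain ⟨u, s, hs, rfl⟩ := IsFractionRing.div_surjective (A := MvPolynomial (Fin n) k) z
  have hs0 : algebraMap _ (RF k n) s ≠ 0 := by
    rw [Ne, FaithfulSMul.algebraMap_eq_zero_iff]
    exact nonZeroDivisors.ne_zero hs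
  refine ⟨⟨((algebraMap _ (RF k n) s)⁻¹) ^ p, pow_p_mem_Cst k n p _⟩, u * s ^ (p - 1), ?_⟩
  change _ = ((algebraMap _ (RF k n) s)⁻¹) ^ p * _
  have hp : p = (p - 1) + 1 := by have := (Fact.out : p.Prime).pos; omega
  rw [map_mul, map_pow]
  have : (algebraMap _ (RF k n) s)⁻¹ ^ p
      = (algebraMap _ (RF k n) s)⁻¹ ^ (p - 1) * (algebraMap _ (RF k n) s)⁻¹ := by
    rw [← pow_succ, ← hp]
  rw [this, div_eq_mul_inv]
  have h2 : (algebraMap _ (RF k n) s)⁻¹ ^ (p - 1) * (algebraMap _ (RF k n) s) ^ (p - 1) = 1 := by
    rw [← mul_pow, inv_mul_cancel₀ hs0, one_pow]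
  calc _ = (algebraMap _ (RF k n) u) * (algebraMap _ (RF k n) s)⁻¹ * 1 := by rw [mul_one]
    _ = _ := by rw [← h2]; ring

include p in
theorem adjoin_eq_top : Algebra.adjoin (Cst k n) (Set.range (xK k n)) = ⊤ := by
  rw [eq_top_iff]
  intro z hz
  clear hz
  obtain ⟨c, a, rfl⟩ := exists_smul_eq k n p z
  apply Subalgebra.smul_mem
  induction a using MvPolynomial.induction_on with
  | C a =>
    have := Subalgebra.algebraMap_mem (Algebra.adjoin (Cst k n) (Set.range (xK k n)))
      ⟨_, C_mem_Cst k n a⟩
    exact this
  | add f g hf hg => rw [map_add]; exact add_mem hf hg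
  | mul_X f i hf =>
    rw [map_mul]
    exact mul_mem hf (Algebra.subset_adjoin (Set.mem_range_self i))

include p in
theorem finite_RF : FiniteDimensional (Cst k n) (RF k n) := by
  have h1 : (Subalgebra.toSubmodule (Algebra.adjoin (Cst k n) (Set.range (xK k n)))).FG := by
    apply fg_adjoin_of_finite (Set.finite_range _)
    rintro _ ⟨i, rfl⟩
    apply IsIntegral.of_pow (Fact.out : p.Prime).pos
    have := isIntegral_algebraMap (R := Cst k n) (A := RF k n)
      (x := ⟨_, pow_p_mem_Cst k n p (xK k n i)⟩)
    exact this
  rw [adjoin_eq_top k n p, Algebra.top_toSubmodule] at h1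
  exact ⟨h1⟩

include p in
theorem der_ext {D E : Derivation (Cst k n) (RF k n) (RF k n)}
    (h : ∀ i, D (xK k n i) = E (xK k n i)) : D = E := by
  apply Derivation.ext_of_adjoin_eq_top _ (adjoin_eq_top k n p)
  rintro _ ⟨i, rfl⟩
  exact h i

theorem linearIndependent_dC : LinearIndependent (RF k n) (dC k n) := by
  rw [Fintype.linearIndependent_iff]
  intro g hg j
  have h1 := congrArg (fun D : Derivation (Cst k n) (RF k n) (RF k n) => D (xK k n j)) hg
  simp only [der_sum_apply, Derivation.smul_apply, dC_xK, smul_eq_mul,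
    Derivation.zero_apply] at h1
  simpa using h1

include p in
theorem dC_comm (i j : Fin n) : ⁅dC k n i, dC k n j⁆ = 0 := by
  apply der_ext k n p
  intro l
  rw [Derivation.commutator_apply, dC_xK, dC_xK]
  by_cases h1 : j = l <;> by_cases h2 : i = l <;> simp [h1, h2]

/-- There is a nonzero functional over the constants that kills all partial derivatives. -/
theorem exists_tau (p : ℕ) [Fact p.Prime] [CharP k p] : ∃ τ : Dual (Cst k n) (RF k n), τ ≠ 0 ∧ ∀ i x, τ (dC k n i x) = 0 := by
  have hf := finite_RF k n p
  have hK : CharP (RF k n) p := charP_RF k n p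
  have hC : CharP (Cst k n) p :=
    (algebraMap (Cst k n) (RF k n)).charP (algebraMap (Cst k n) (RF k n)).injective p
  have h := span_ne_top (dC k n) p (linearIndependent_dC k n)
    (by
      intro i j
      have h1 := dC_comm k n p i j
      have h2 : opE (dC k n) i * opE (dC k n) j - opE (dC k n) j * opE (dC k n) i = 0 := by
        ext x
        have h3 := congrArg (fun D : Derivation (Cst k n) (RF k n) (RF k n) => D x) h1
        exact h3
      rw [h2]; exact Submodule.zero_mem _)
    (by
      intro i
      have h1 : PoissonField.powDer p (dC k n i) = 0 := by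
        apply der_ext k n p
        intro j
        rw [PoissonField.powDer_apply]
        obtain ⟨q, hq⟩ : ∃ q, p = q + 2 := ⟨p - 2, by have := (Fact.out : p.Prime).two_le; omega⟩
        rw [hq, pow_add, pow_two, Module.End.mul_apply, Module.End.mul_apply]
        have h2 : (dC k n i : RF k n →ₗ[Cst k n] RF k n)
            ((dC k n i : RF k n →ₗ[Cst k n] RF k n) (xK k n j)) = 0 := by
          change dC k n i (dC k n i (xK k n j)) = 0
          rw [dC_xK]
          by_cases h : i = j <;> simp [h]
        rw [h2, map_zero]; rfl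
      have h2 : opE (dC k n) i ^ p = 0 := by
        ext x
        have h3 := congrArg (fun D : Derivation (Cst k n) (RF k n) (RF k n) => D x) h1
        exact h3
      rw [h2]; exact Submodule.zero_mem _)
  obtain ⟨τ, hτ, hτ2⟩ := Submodule.exists_dual_map_eq_bot_of_lt_top (lt_top_iff_ne_top.mpr h)
    inferInstance
  refine ⟨τ, hτ, fun i x => ?_⟩
  have h1 : τ (dC k n i x) ∈ Submodule.map τ
      (Submodule.span (Cst k n) {x | ∃ i y, x = dC k n i y}) :=
    Submodule.mem_map_of_mem (Submodule.subset_span ⟨i, x, rfl⟩)
  rw [hτ2] at h1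
  simpa using h1

end Pool.Agent.Lib.MPc5669f
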