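import Mathlib
import Pool.Agent.Lib.MP_c5669f_al.Consts

namespace Pool.Agent.Lib.MPc5669f

open Module MvPolynomial

section Br

variable {k : Type*} [Field k] {n : ℕ}
  (br : MvPolynomial (Fin n) k →ₗ[k] MvPolynomial (Fin n) k →ₗ[k] MvPolynomial (Fin n) k)

theorem br_anti (halt : ∀ a, br a a = 0) (a b : MvPolynomial (Fin n) k) : br a b = - br b a := by
  have h := halt (a + b)
  rw [br.map_add, LinearMap.add_apply, (br a).map_add, (br b).map_add, halt, halt] at h
  rw [zero_add, add_zero] at h
  exact eq_neg_of_add_eq_zero_left h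

theorem br_right (hleib : ∀ a b c, br a (b * c) = b * br a c + c * br a b)
    (a b : MvPolynomial (Fin n) k) : br a b = ∑ j, br a (X j) * pderiv j b := by
  let D : Derivation k (MvPolynomial (Fin n) k) (MvPolynomial (Fin n) k) :=
    Derivation.mk' (br a) (fun b c => by rw [hleib]; rfl)
  let E : Derivation k (MvPolynomial (Fin n) k) (MvPolynomial (Fin n) k) :=
    ∑ j, br a (X j) • (pderiv j : Derivation k _ _)
  have hE : ∀ x, E x = ∑ j, br a (X j) * pderiv j x := by
    intro x
    have : ∀ s : Finset (Fin n), (∑ j ∈ s, br a (X j) • (pderiv j : Derivation k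
        (MvPolynomial (Fin n) k) (MvPolynomial (Fin n) k))) x
        = ∑ j ∈ s, br a (X j) * pderiv j x := by
      intro s
      induction s using Finset.induction_on with
      | empty => simp
      | insert i s hi ih =>
        rw [Finset.sum_insert hi, Finset.sum_insert hi, Derivation.add_apply, ih]; rfl
    exact this _
  have hDE : D = E := by
    apply MvPolynomial.derivation_ext
    intro i
    rw [hE]
    simp [D, pderiv_X, Pi.single_apply]
  have h1 : D b = E b := by rw [hDE]
  rw [hE] at h1
  exact h1

theorem br_left (halt : ∀ a, br a a = 0)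
    (hleib : ∀ a b c, br a (b * c) = b * br a c + c * br a b)
    (a b : MvPolynomial (Fin n) k) : br a b = ∑ i, pderiv i a * br (X i) b := by
  rw [br_anti br halt, br_right br hleib, ← Finset.sum_neg_distrib]
  refine Finset.sum_congr rfl fun j _ => ?_
  rw [br_anti br halt (X j) b]; ring

/-- The bracket on rational functions. -/
noncomputable def ham : RF k n →ₗ[Cst k n] Derivation (Cst k n) (RF k n) (RF k n) where
  toFun a := ∑ j, (∑ i, algebraMap _ (RF k n) (br (X i) (X j)) * dC k n i a) • dC k n j
  map_add' a b := by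
    rw [← Finset.sum_add_distrib]
    refine Finset.sum_congr rfl fun j _ => ?_
    rw [← add_smul, ← Finset.sum_add_distrib]
    congr 1
    refine Finset.sum_congr rfl fun i _ => ?_
    rw [map_add, mul_add]
  map_smul' c a := by
    rw [RingHom.id_apply, Finset.smul_sum]
    refine Finset.sum_congr rfl fun j _ => ?_
    rw [← smul_assoc, Finset.smul_sum]
    congr 1
    refine Finset.sum_congr rfl fun i _ => ?_
    rw [(dC k n i).map_smul, mul_smul_comm]

theorem ham_apply (a b : RF k n) : ham br a b
    = ∑ j, (∑ i, algebraMap _ (RF k n) (br (X i) (X j)) * dC k n i a) * dC k n j b := by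
  change (∑ j, (∑ i, algebraMap _ (RF k n) (br (X i) (X j)) * dC k n i a) • dC k n j) b = _
  rw [der_sum_apply]
  rfl

theorem ham_algebraMap (halt : ∀ a, br a a = 0)
    (hleib : ∀ a b c, br a (b * c) = b * br a c + c * br a b)
    (a b : MvPolynomial (Fin n) k) :
    ham br (algebraMap _ (RF k n) a) (algebraMap _ (RF k n) b)
      = algebraMap _ (RF k n) (br a b) := by
  rw [ham_apply, br_right br hleib a b, map_sum]
  refine Finset.sum_congr rfl fun j _ => ?_
  rw [map_mul, dC_algebraMap, br_left br halt hleib a (X j), map_sum]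
  congr 1
  refine Finset.sum_congr rfl fun i _ => ?_
  rw [map_mul, dC_algebraMap, mul_comm]

theorem ham_alt (halt : ∀ a, br a a = 0) (a : RF k n) : ham br a a = 0 := by
  rw [ham_apply]
  have h1 : ∑ j, (∑ i, algebraMap _ (RF k n) (br (X i) (X j)) * dC k n i a) * dC k n j a
      = ∑ j, ∑ i, algebraMap _ (RF k n) (br (X i) (X j)) * dC k n i a * dC k n j a :=
    Finset.sum_congr rfl fun j _ => Finset.sum_mul _ _ _
  rw [h1]
  apply sum_alternating
  · intro i j
    rw [br_anti br halt (X i) (X j), map_neg]; ring
  · intro i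
    rw [halt, map_zero]; ring

theorem ham_jac (p : ℕ) [Fact p.Prime] [CharP k p] (halt : ∀ a, br a a = 0)
    (hjac : ∀ a b c, br a (br b c) = br (br a b) c + br b (br a c))
    (hleib : ∀ a b c, br a (b * c) = b * br a c + c * br a b) (a b : RF k n) :
    ⁅ham br a, ham br b⁆ = ham br (ham br a b) := by
  ext c
  obtain ⟨ca, a, rfl⟩ := exists_smul_eq k n p a
  obtain ⟨cb, b, rfl⟩ := exists_smul_eq k n p b
  obtain ⟨cc, c, rfl⟩ := exists_smul_eq k n p c
  rw [Derivation.commutator_apply]
  simp only [LinearMap.map_smul, Derivation.map_smul, Derivation.smul_apply,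
    ham_algebraMap br halt hleib]
  rw [hjac a b c, map_add]
  simp only [Algebra.smul_def]
  ring

/-- The main theorem in unbundled form. -/
theorem exists_normal (p : ℕ) [Fact p.Prime] [CharP k p] (halt : ∀ a, br a a = 0)
    (hjac : ∀ a b c, br a (br b c) = br (br a b) c + br b (br a c))
    (hleib : ∀ a b c, br a (b * c) = b * br a c + c * br a b) :
    ∃ F : MvPolynomial (Fin n) k, F ≠ 0 ∧
      ∀ a, br a F = F * ∑ j, pderiv j (br (X j) a) := by
  have hfin := finite_RF k n p
  have hK : CharP (RF k n) p := charP_RF k n p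
  let B : PoissonField (Cst k n) (RF k n) :=
    { X := ham br
      alt := ham_alt br halt
      jac := ham_jac br p halt hjac hleib }
  obtain ⟨τ, hτ, hτd⟩ := exists_tau k n p
  have hne := B.brackets_span_ne_top p
  obtain ⟨lam, hlam, hlam2⟩ := Submodule.exists_dual_map_eq_bot_of_lt_top
    (lt_top_iff_ne_top.mpr hne) inferInstance
  have hlamb : ∀ a b, lam (ham br a b) = 0 := by
    intro a b
    have h1 : lam (ham br a b) ∈ Submodule.map lam
        (Submodule.span (Cst k n) {x | ∃ a b, x = B.X a b}) :=
      Submodule.mem_map_of_mem (Submodule.subset_span ⟨a, b, rfl⟩)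
    rw [hlam2] at h1
    simpa using h1
  -- nondegeneracy
  have hnd : ∀ z : RF k n, (∀ y, τ (z * y) = 0) → z = 0 := by
    intro z hz
    by_contra hz0
    apply hτ
    ext y
    have := hz (z⁻¹ * y)
    rw [← mul_assoc, mul_inv_cancel₀ hz0, one_mul] at this
    simpa using this
  let Θ : RF k n →ₗ[Cst k n] Dual (Cst k n) (RF k n) :=
    (LinearMap.llcomp (Cst k n) (RF k n) (RF k n) (Cst k n) τ) ∘ₗ
      (LinearMap.mul (Cst k n) (RF k n))
  have hΘ : ∀ z y, Θ z y = τ (z * y) := fun z y => rfl
  have hΘinj : Function.Injective Θ := by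
    rw [injective_iff_map_eq_zero]
    intro z hz
    apply hnd
    intro y
    rw [← hΘ, hz]; rfl
  have hΘsurj : Function.Surjective Θ := by
    rw [← LinearMap.injective_iff_surjective_of_finrank_eq_finrank]
    · exact hΘinj
    · exact Subspace.dual_finrank_eq.symm
  obtain ⟨G, hG⟩ := hΘsurj lam
  have hGlam : ∀ y, lam y = τ (G * y) := by
    intro y; rw [← hG]; rfl
  have hG0 : G ≠ 0 := by
    rintro rfl
    apply hlam
    ext y
    rw [hGlam]; simp
  -- the key identity
  have hkey : ∀ a : MvPolynomial (Fin n) k, ham br (algebraMap _ (RF k n) a) G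
      = G * algebraMap _ (RF k n) (∑ j, pderiv j (br (X j) a)) := by
    intro a
    let w : Fin n → RF k n := fun j => algebraMap _ (RF k n) (br a (X j))
    have hham : ∀ b, ham br (algebraMap _ (RF k n) a) b = ∑ j, w j * dC k n j b := by
      intro b
      rw [ham_apply]
      refine Finset.sum_congr rfl fun j _ => ?_
      congr 1
      simp only [w]
      rw [br_left br halt hleib a (X j), map_sum]
      refine Finset.sum_congr rfl fun i _ => ?_
      rw [map_mul, dC_algebraMap, mul_comm]
    have hdiv : ∑ j, dC k n j (G * w j) = 0 := by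
      apply hnd
      intro b
      have h1 : (∑ j, dC k n j (G * w j)) * b = ∑ j, dC k n j (G * w j * b)
          - G * ham br (algebraMap _ (RF k n) a) b := by
        rw [hham, Finset.mul_sum, ← Finset.sum_sub_distrib, Finset.sum_mul]
        refine Finset.sum_congr rfl fun j _ => ?_
        rw [(dC k n j).leibniz (G * w j) b]
        simp only [smul_eq_mul]
        ring
      rw [h1, map_sub, map_sum, ← hGlam, hlamb, sub_zero]
      exact Finset.sum_eq_zero fun j _ => hτd j _
    have h2 : ∑ j, dC k n j (G * w j) = ham br (algebraMap _ (RF k n) a) G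
        + G * ∑ j, dC k n j (w j) := by
      rw [hham, Finset.mul_sum, ← Finset.sum_add_distrib]
      refine Finset.sum_congr rfl fun j _ => ?_
      rw [(dC k n j).leibniz]
      simp only [smul_eq_mul]
      ring
    rw [hdiv] at h2
    have h3 : ∑ j, dC k n j (w j) = - algebraMap _ (RF k n) (∑ j, pderiv j (br (X j) a)) := by
      rw [map_sum, ← Finset.sum_neg_distrib]
      refine Finset.sum_congr rfl fun j _ => ?_
      simp only [w]
      rw [dC_algebraMap, br_anti br halt a (X j), map_neg, map_neg]
    rw [h3] at h2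
    have h4 := eq_neg_of_add_eq_zero_left h2.symm
    rw [h4]; ring
  obtain ⟨c, F, hcF⟩ := exists_smul_eq k n p G
  have hc : c ≠ 0 := by
    rintro rfl
    apply hG0
    rw [hcF, zero_smul]
  refine ⟨F, ?_, ?_⟩
  · rintro rfl
    apply hG0
    rw [hcF, map_zero, smul_zero]
  · intro a
    have h1 := hkey a
    rw [hcF, Derivation.map_smul, ham_algebraMap br halt hleib, smul_mul_assoc, ← map_mul] at h1
    have h2 := smul_right_injective (RF k n) hc h1
    exact IsFractionRing.injective (MvPolynomial (Fin n) k) (RF k n) h2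

end Br

end Pool.Agent.Lib.MPc5669f
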